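import Mathlib
import Pool.Agent.H98.Code.AA
import Pool.Agent.H98.Code.Minor

set_option autoImplicit false

/-!
The graph of a code of the class `AA` is connected (MP_a46c6f_co).
-/

namespace Pool.Agent.H64.AA

open Pool.Agent.H98.Code

section
variable {V : Type} [Fintype V]

/-- in a code of the class `AA` the full state is a word -/
theorem full_mem [Nonempty V] {L : Submodule (ZMod 2) (V → K)} (h : AA L) {D : V → K}
    (hD : FullState L D) : D ∈ L := by
  obtain ⟨v⟩ := ‹Nonempty V›
  obtain ⟨u, hu, hu1, hu2⟩ := hD.2 v
  rcases h.cor D hD u hu hu1 with h1 | h1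
  · subst h1
    exact absurd rfl hu2
  · rw [← h1]
    exact hu

/-- if no row of a place in `A` has a letter `z` outside `A`, then the full state restricted to `A` is
a word -/
theorem restrict_mem {L : Submodule (ZMod 2) (V → K)} (hL : IsCode L) (hz : NoZ L) {D : V → K}
    (hD : D ∈ L) (hD1 : ∀ v, (D v).1 = 1) (A : V → Prop) [DecidablePred A]
    (hA : ∀ r ∈ L, ∀ v, A v → (r v).1 = 1 → (∀ w, w ≠ v → (r w).1 = 0) → ∀ w, ¬ A w → r w = 0) :
    (fun v => if A v then D v else 0) ∈ L := by
  classical
  obtain ⟨H, hH, hm⟩ := exists_matrix hL hz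
  have h0 : ∀ v w, A v → ¬ A w → H w v = 0 := by
    intro v w hv hw
    obtain ⟨r, hr, hr1, hr0⟩ := exists_row hL hz v
    have h1 := hA r hr v hv hr1 hr0 w hw
    have h2 := (hm r).1 hr w
    rw [h1, Finset.sum_eq_single v] at h2
    · rw [hr1, mul_one] at h2
      exact h2.symm
    · intro i _ hi
      rw [hr0 i hi, mul_zero]
    · intro h
      exact absurd (Finset.mem_univ v) h
  rw [hm]
  intro v
  by_cases hv : A v
  · simp only [hv, if_true]
    rw [(hm D).1 hD v]
    refine Finset.sum_congr rfl fun w _ => ?_
    by_cases hw : A w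
    · simp only [hw, if_true]
    · simp only [hw, if_false]
      rw [hH, h0 v w hv hw, zero_mul, zero_mul]
  · simp only [hv, if_false]
    symm
    refine Finset.sum_eq_zero fun w _ => ?_
    by_cases hw : A w
    · rw [h0 w v hw hv, zero_mul]
    · simp only [hw, if_false]
      simp

/-- the graph of a code of the class `AA` is connected -/
theorem connected [Nonempty V] {L : Submodule (ZMod 2) (V → K)} (h : AA L) :
    (graph L).Connected := by
  classical
  obtain ⟨D, hD⟩ := h.ex
  have hDL := full_mem h hD
  refine (SimpleGraph.connected_iff _).2 ⟨?_, inferInstance⟩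
  intro a b
  have h1 := restrict_mem h.code h.noZ hDL hD.1 (fun v => (graph L).Reachable a v) (by
    intro r hr v hv hr1 hr0 w hw
    have hvw : w ≠ v := by
      rintro rfl
      exact hw hv
    rcases k_cases (r w) with h2 | h2 | h2
    · exact h2
    · exfalso
      apply hw
      refine hv.trans (SimpleGraph.Adj.reachable ?_)
      rw [graph, SimpleGraph.fromRel_adj]
      exact ⟨Ne.symm hvw, Or.inl ⟨r, hr, hr1, hr0, h2⟩⟩
    · rw [hr0 w hvw] at h2
      exact absurd h2 (by decide))
  have h2 := h.cor D hD _ h1 (by
    intro v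
    by_cases hv : (graph L).Reachable a v
    · right
      simp only [hv, if_true]
    · left
      simp only [hv, if_false])
  rcases h2 with h2 | h2
  · exfalso
    have h3 := congrFun h2 a
    simp only [SimpleGraph.Reachable.refl, if_true, Pi.zero_apply] at h3
    have h4 := hD.1 a
    rw [h3] at h4
    exact absurd h4 (by decide)
  · by_contra hb
    have h3 := congrFun h2 b
    simp only [hb, if_false] at h3
    have h4 := hD.1 b
    rw [← h3] at h4
    exact absurd h4 (by decide)

/-- the graph on one vertex is a tree -/
theorem isTree_of_card_one [Nonempty V] {L : Submodule (ZMod 2) (V → K)} (h : AA L)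
    (h1 : Fintype.card V = 1) : (graph L).IsTree := by
  classical
  haveI : Subsingleton V := (Fintype.card_le_one_iff_subsingleton).1 h1.le
  refine ⟨connected h, ?_⟩
  intro v c hc
  exact absurd (c.adj_snd hc.not_nil) (by
    rw [Subsingleton.elim c.snd v]
    exact (graph L).irrefl)

end

end Pool.Agent.H64.AA
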