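import Mathlib
import Pool.Agent.H98.Code.AA
import Pool.Agent.H98.Code.Minor

set_option autoImplicit false

/-!
The parity end: a code with a full word, whose words with a single missing place vanish there, has no
pointed word (MP_a46c6f_co).
-/

namespace Pool.Agent.H64.AA

open Pool.Agent.H98.Code

section
variable {V : Type}

/-- a symmetric double sum over `ZMod 2` is the sum of the diagonal -/
theorem sum_symm (s : Finset V) (F : V → V → ZMod 2) (hF : ∀ u v, F u v = F v u) :
    ∑ u ∈ s, ∑ v ∈ s, F u v = ∑ u ∈ s, F u u := by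
  classical
  induction s using Finset.induction_on with
  | empty => simp
  | insert a s ha ih =>
    rw [Finset.sum_insert ha, Finset.sum_insert ha, Finset.sum_insert ha]
    have h1 : ∑ x ∈ s, ∑ v ∈ insert a s, F x v = ∑ x ∈ s, F x a + ∑ x ∈ s, ∑ v ∈ s, F x v := by
      rw [← Finset.sum_add_distrib]
      exact Finset.sum_congr rfl fun x _ => Finset.sum_insert ha
    have h2 : ∑ x ∈ s, F x a = ∑ x ∈ s, F a x := Finset.sum_congr rfl fun x _ => hF x a
    rw [h1, h2, ih, add_assoc, ← add_assoc (∑ x ∈ s, F a x) (∑ x ∈ s, F a x),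
      CharTwo.add_self_eq_zero, zero_add]

variable [Fintype V]

/-- the parity end of the proof of the tree theorem: if there is a full word `D`, and for every `s`
there is a word with a letter everywhere except at `s` and `0` at `s`, then there is no pointed
word -/
theorem parity_end {L : Submodule (ZMod 2) (V → K)} (hL : IsCode L) (hz : NoZ L) {D : V → K}
    (hD : D ∈ L) (hD1 : ∀ v, (D v).1 = 1)
    (hB : ∀ s, ∃ b ∈ L, b s = 0 ∧ ∀ v, v ≠ s → (b v).1 = 1)
    {w : V → K} (hw : w ∈ L) {r : V} (hr : w r = z) (hw1 : ∀ v, v ≠ r → w v ≠ z) : False := by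
  classical
  obtain ⟨H, hH, hm⟩ := exists_matrix hL hz
  have hdiag : ∀ s, (D s).2 = H s s := by
    intro s
    obtain ⟨b, hb, hb0, hb1⟩ := hB s
    have h1 : D + b ∈ L := L.add_mem hD hb
    have h2 := (hm _).1 h1 s
    rw [Finset.sum_eq_single s] at h2
    · rw [Pi.add_apply, hb0, add_zero, hD1, mul_one] at h2
      exact h2
    · intro i _ hi
      rw [Pi.add_apply, Prod.fst_add, hD1, hb1 i hi]
      rw [show (1 : ZMod 2) + 1 = 0 from rfl, mul_zero]
    · intro h
      exact absurd (Finset.mem_univ s) h
  have h1 := hL.iso _ hw _ hD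
  have hw2 : ∀ v, (w v).2 = (if v = r then 1 else 0) + (w v).1 * (w v).2 := by
    intro v
    by_cases hv : v = r
    · subst hv
      rw [hr]
      simp [z]
    · rw [if_neg hv, zero_add]
      have := hw1 v hv
      revert this
      generalize w v = a
      revert a
      decide
  have h2 : form w D = ∑ v, ((w v).1 * H v v + (w v).2) := by
    simp only [form, kf]
    exact Finset.sum_congr rfl fun v _ => by rw [hdiag, hD1, mul_one]
  have h3 : ∑ v, (w v).2 = 1 + ∑ v, (w v).1 * H v v := by
    have h4 : ∑ v, (w v).1 * (w v).2 = ∑ v, (w v).1 * H v v := by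
      have h5 : ∀ v, (w v).1 * (w v).2 = ∑ u, (w v).1 * H v u * (w u).1 := by
        intro v
        rw [(hm w).1 hw v, Finset.mul_sum]
        exact Finset.sum_congr rfl fun u _ => by ring
      rw [Finset.sum_congr rfl fun v _ => h5 v,
        sum_symm Finset.univ (fun v u => (w v).1 * H v u * (w u).1) (fun u v => by
          rw [hH u v]
          ring)]
      refine Finset.sum_congr rfl fun v _ => ?_
      generalize (w v).1 = a
      generalize H v v = b
      revert a b
      decide
    rw [← h4, Finset.sum_congr rfl fun v _ => hw2 v, Finset.sum_add_distrib,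
      Finset.sum_ite_eq' Finset.univ r, if_pos (Finset.mem_univ r)]
  rw [h2, Finset.sum_add_distrib, h3] at h1
  revert h1
  generalize ∑ v, (w v).1 * H v v = a
  revert a
  decide

end

end Pool.Agent.H64.AA
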